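import Pool.Agent.H896.SG.Max
import Pool.Agent.H509.ST.TWO

/-!
# MP_ca56d1_nt: the rank one abelian Stark conjecture in Tate's form for multiquadratic extensions

Let `H / K` be an abelian extension of number fields whose Galois group has exponent two (of any
order), and `S`, `𝔭` as in Q1.

**Theorem.** The conjecture (Q1) holds for `H / K`, `S`, `𝔭` if one of the following conditions is
satisfied:
(a) `K` is totally real, or `K` has at least two complex places;
(b) at least one prime ideal of `K` above two is unramified in `H`;
(c) `#Σ ≤ 2 ^ (#S - 1)`, where `Σ` is the subgroup of `Gal(H/K)` which is generated by the decomposition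
groups of the places of `S`;
(d) a place of `S` other than `𝔭` is totally split in `H` (the classical case; for example a complex
place of `K` other than `𝔭`);
(e) `H` is not maximal: there is an `x ∈ K^*`, with even valuations at all prime ideals which are
unramified in `H`, such that `√x` is in no compositum `H E`, where `E / K` is abelian, unramified at all
prime ideals and all infinite places, and the prime ideals which are ramified in `H` split in `E`.

So the only cases which are left for groups of exponent two are those where `K` has exactly one
complex place, this place is `𝔭`, all prime ideals above two are ramified in `H`, and `H` is maximal: the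
compositum of `H` and of the fields `E` contains all quadratic extensions of `K` which are unramified at
the prime ideals that are unramified in `H` (and more, all `√x` as in (e)). For example, if `K` has odd
class number, then for each set `R` of prime ideals (containing those above two) only one field `H` with
the ramified primes `R` is left, the field `K(√x : x ∈ K^*, v(x) even for v ∉ R)`. This includes the
imaginary quadratic fields, where the conjecture is known.

The proof.  If a second place of `S` is totally split and `#S ≥ 3` then `ε = 1`; the case of two totally
split places and `#S = 2` is the class number formula. Otherwise let `n_2` be the sum of the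
degrees `[K_v : ℚ_2]` over the ramified `v` above two. The Kummer group of `H / K` is isotropic for the
sum of the Hilbert symbols at the places of `S` which are archimedean or ramified, so
`(#Σ)² ≤ ∏ #(K_v^* / K_v^{*2})`, and under (a) or (b) `n_2` is at most one more than the number of the
real places which become complex, and (c) follows. Under (e) the classes of `x` and of the Kummer group
generate an isotropic group which is strictly larger than the group of the Kummer classes, so that
`2 #Σ ≤ 2 ^ #S`, and again (c) follows. Under (c) Rubin's conjecture and Popescu's
conjecture hold for `H / K` (`MP_dd9835_nt.MultiquadraticExtensions`); in rank one Popescu's conjecture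
gives `ε` with the right absolute values and with `H (ε ^ (1/W)) / K` abelian.
-/

set_option autoImplicit false

open NumberField IsDedekindDomain

noncomputable section

namespace Pool.Agent.Results.MP_ca56d1_nt.MultiquadraticExtensions

open Pool.Agent.N598.ST (Place Data Stark TotallySplit Over nabs Unram)

/-- The valuation of `x` at `v` is even: it is the valuation of a square. -/
def EvenAt {K : Type} [Field K] [NumberField K] (v : HeightOneSpectrum (𝓞 K)) (x : K) : Prop :=
  ∃ y : K, v.valuation K x = v.valuation K y ^ 2

/-- `E / K` is unramified at all prime ideals and at all infinite places, and the prime ideals which are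
ramified in `H` split totally in `E`. -/
def SmallUnder (K H E : Type) [Field K] [NumberField K] [Field H] [NumberField H] [Algebra K H]
    [Field E] [NumberField E] [Algebra K E] : Prop :=
  ((∀ v : HeightOneSpectrum (𝓞 K), Unram K E v) ∧ ∀ w : InfinitePlace E, w.IsUnramified K) ∧
    ∀ v : HeightOneSpectrum (𝓞 K), ¬ Unram K H v → TotallySplit K E (Sum.inr v)

/-- The field `H` (of exponent two over `K`) is not maximal: there is an `x ∈ K^*`, with even valuations
at all prime ideals which are unramified in `H`, such that `√x` is in no compositum `H E` with an abelian
extension `E / K` as in `SmallUnder`, that is (Kummer theory), `x y` is not a square in `E` for all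
`y ∈ K^*` which are squares in `H`. -/
def NotMaximal (K H : Type) [Field K] [NumberField K] [Field H] [NumberField H] [Algebra K H] :
    Prop :=
  ∃ x : K, x ≠ 0 ∧ (∀ v : HeightOneSpectrum (𝓞 K), Unram K H v → EvenAt v x) ∧
    ∀ (E : Type) [Field E] [NumberField E] [Algebra K E] [IsAbelianGalois K E], SmallUnder K H E →
      ∀ (y : K) (b : H) (e : E), y ≠ 0 → b ^ 2 = algebraMap K H y → e ^ 2 ≠ algebraMap K E (x * y)

theorem notMaximal {K H : Type} [Field K] [NumberField K] [Field H] [NumberField H] [Algebra K H]
    (h : NotMaximal K H) : Pool.Agent.H896.SG.NotMaximal K H := by
  obtain ⟨x, h0, h1, h2⟩ := h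
  exact ⟨x, h0, h1, fun E _ _ _ _ h3 h4 => h2 E ⟨h3, h4⟩⟩

/-- **The rank one abelian Stark conjecture for groups of exponent two.** -/
theorem result (K H : Type) [Field K] [NumberField K] [Field H] [NumberField H] [Algebra K H]
    [IsAbelianGalois K H] (h2 : ∀ g : Gal(H/K), g * g = 1) (S : Finset (Place K)) (p : Place K)
    (hD : Data K H S p)
    (h : InfinitePlace.nrComplexPlaces K ≠ 1 ∨
      (∃ v : HeightOneSpectrum (𝓞 K), (2 : 𝓞 K) ∈ v.asIdeal ∧ Unram K H v) ∨
      Nat.card (Subgroup.closure {g : Gal(H/K) | ∃ q ∈ S, ∃ Q : Place H, Over K H Q q ∧
        ∀ x : H, nabs Q (g x) = nabs Q x}) ≤ 2 ^ (S.card - 1) ∨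
      (∃ q ∈ S, q ≠ p ∧ TotallySplit K H q) ∨
      NotMaximal K H) : Stark K H S p := by
  by_cases hnt : 3 ≤ S.card ∨ ∃ q ∈ S, ¬ TotallySplit K H q
  · rcases h with h | h | h | h | h
    · exact Pool.Agent.STk.stark_exp2 h2 S p hD hnt (Or.inl h)
    · exact Pool.Agent.STk.stark_exp2 h2 S p hD hnt (Or.inr (Or.inl h))
    · exact Pool.Agent.STk.stark_exp2 h2 S p hD hnt (Or.inr (Or.inr h))
    · exact Pool.Agent.STk.rank_one h2 S p hD hnt (Or.inl h)
    · exact Pool.Agent.H896.SG.stark_d h2 S p hD hnt (Or.inr (Or.inr (Or.inr (notMaximal h))))
  · push Not at hnt
    exact Pool.Agent.H79.ST.two K H (Pool.Agent.STk.CG K H) (Pool.Agent.STk.toCG K H)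
      (Pool.Agent.STk.toCG_smul K H) h2 S p hD (by have := hD.two_le; omega) hnt.2

end Pool.Agent.Results.MP_ca56d1_nt.MultiquadraticExtensions
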