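import Pool.Agent.H896.SI.Infl

/-!
# The rational form of the rank one abelian Stark conjecture: reduction to cyclic extensions

`RankOneData F K` are the data of the question, `RankOneData.Q1` is the question up to powers of the
unit and without the condition that `K(ε^{1/W})/F` is abelian.
-/

set_option autoImplicit false

namespace Pool.Agent.Results.MP_ca56d1_nt.RationalFormReduction

open NumberField Pool.Agent.Q20.SI Pool.Agent.H896.SI

/-- **Theorem.** Let `F` be a number field. Suppose that Stark's rational conjecture holds
* for the cyclic extensions `L/E` of finite extensions `E` of `F` which are unramified at all finite
  places, `S` = archimedean places and one inert prime (`UnramifiedInert F`),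
* for the cyclic extensions `L/F` in which the complex conjugations at all places above the real places
  of `F` are the same automorphism `c ≠ 1` (CM fields if `F` is totally real), `S` = archimedean places,
  ramified primes and one inert prime, where the order of vanishing is the number of complex places of
  `F` (`OddCyclic F`; if `F` is totally real, this order is `0` and this is the theorem of Siegel).

Then for all abelian extensions `K/F`, all `S` and all places `v` of `K` above a place `𝔭` in `S` which
splits completely, `S ≠ {𝔭}`, there are `m > 0` and `ε ∈ U^T_{S,K}` with
`log |g ε|_v = - m ζ_S'(g, 0)` for all `g ∈ Gal(K/F)`. -/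
theorem result (F : Type) [Field F] [NumberField F] (hU : UnramifiedInert F) (hO : OddCyclic F)
    (K : Type) [Field K] [NumberField K] [Algebra F K] [IsGalois F K] (D : RankOneData F K) :
    D.Q1 :=
  (one_iff D).2 fun χ _ _ σ => starkFor_sharp hU hO χ σ

end Pool.Agent.Results.MP_ca56d1_nt.RationalFormReduction
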